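import Pool.Agent.H50.OCV.Ker

/-!
# Theorem OCV: row SCH

The two laws `QS`, `QD` are schemes of references.
-/

set_option autoImplicit false

namespace Pool.OCV.SC

open Finset Real
open Pool.Agent.H49.Ent Pool.Agent.H32.Dense Pool.STK Pool.KAF
open Pool.OC.RS (mi_eq mi_comm mi_eq' mi_nonneg mi_congr mi_chain mi_mono mi_mono_left)

variable {c : ℕ}

theorem Marg.MI {Ω Ω' S T U : Type} [Fintype Ω] [Fintype Ω'] {q : Ω' → ℝ} {p : Ω → ℝ}
    {pr : Ω' → Ω} (h : Marg q p pr) (A : Ω → S) (B : Ω → T) (b : Ω → U) :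
    Pool.KVA.MI q (fun z => A (pr z)) (fun z => B (pr z)) (fun z => b (pr z)) =
      Pool.KVA.MI p A B b := by
  unfold Pool.KVA.MI
  rw [h.CH A b, h.CH B b, h.CH (fun ω => (A ω, B ω)) b]

theorem law_unit {Ω S : Type} [Fintype Ω] (p : Ω → ℝ) (L : Ω → S) (l : S) :
    law p (fun v => (L v, (0 : ℤ))) (l, 0) = law p L l := by
  classical
  unfold law
  refine Finset.sum_congr rfl fun ω _ => ?_
  by_cases h : L ω = l <;> simp [h]

/-- The properties of the kernel of the references. -/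
structure KR (d : Dat c) (κ : d.Om → d.Om → ℝ) : Prop where
  nn : ∀ ω a, 0 ≤ κ ω a
  one : ∀ ω, 0 < d.P ω → ∑ a, κ ω a = 1
  stat : ∀ a, ∑ ω, d.P ω * κ ω a = d.P a
  pos : ∀ ω a, 0 < κ ω a → 0 < d.P a ∧ d.L a = d.L ω
  dep : ∀ ω ω', d.L ω = d.L ω' → d.T ω = d.T ω' → κ ω = κ ω'
  mi : CH (fun w : d.Om × d.Om => d.P w.1 * κ w.1 w.2) (fun w => d.T w.2)
      (fun w => (d.T w.1, d.B w.1)) -
    CH (fun w : d.Om × d.Om => d.P w.1 * κ w.1 w.2) (fun w => d.T w.2)
      (fun w => (d.L w.1, d.T w.1)) ≤ Pool.KVA.MI d.P d.T d.L d.B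

theorem gk_kr (d : Dat c) (hl : IsLaw d.P) {m : ℕ} (hm : 1 ≤ m) (τ : Fin m → d.Tau → ℤ) :
    KR d (gk d.P d.L d.T τ) where
  nn := gk_nonneg d.L d.T τ hl.nonneg
  one := fun _ h => gk_sum d.L d.T τ hl.nonneg hm h
  stat := gk_stat d.L d.T τ hl.nonneg hm
  pos := fun _ _ h => gk_pos d.L d.T τ hl.nonneg h
  dep := fun _ _ h h' => gk_dep d.L d.T τ h h'
  mi := gk_mi d.L d.T τ hl.nonneg hm d.B fun ω ω' _ _ e => by
    unfold Dat.B
    rw [e]

theorem ker_kr (d : Dat c) (hl : IsLaw d.P) {n : ℕ} (hn : 1 ≤ n) (s : Bool) :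
    KR d (ker d s n) := by
  cases s with
  | false =>
    have e : ker d false n = gk d.P d.L d.T (fun (_ : Fin 1) (_ : d.Tau) => (0 : ℤ)) := by
      funext ω a
      unfold ker gk ck lbi Dat.pl Pool.Agent.H49.Ent.cond
      simp only [Bool.false_eq_true, if_false, Finset.univ_unique, Finset.sum_const,
        Finset.card_singleton, one_smul, Nat.cast_one, div_one]
      rw [law_unit]
      by_cases h : d.L a = d.L ω <;> simp [h]
    rw [e]
    exact gk_kr d hl le_rfl _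
  | true =>
    have e : ker d true n = gk d.P d.L d.T
        (fun (i : Fin n) (t : d.Tau) => ⌊(2 : ℝ) ^ (n + i.val) * d.th t⌋) := by
      funext ω a
      unfold ker gk
      simp only [if_true]
      congr 1
      rw [Finset.sum_Ico_eq_sum_range, Finset.sum_range, show 2 * n - n = n by omega]
      rfl
    rw [e]
    exact gk_kr d hl hn _

/-- The two conditions on the information. -/
theorem core {Z S₁ S₂ S₃ S₄ S₅ : Type} [Fintype Z] {Q : Z → ℝ} (hQ : ∀ z, 0 ≤ Q z)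
    (Lk : Z → S₁) (Bk : Z → S₂) (N : Z → S₃) (X1 : Z → S₄) (X2 : Z → S₅) {κ m : ℝ}
    (h1 : Pool.KVA.MI Q Lk X1 Bk ≤ κ) (h2 : Pool.KVA.MI Q N Bk X1 ≤ κ)
    (h3 : Det Q (fun z => (Lk z, X1 z)) N)
    (h4 : Pool.KVA.MI Q Lk X2 (fun z => (X1 z, Bk z)) ≤ m) :
    Pool.KVA.MI Q Lk (fun z => (X1 z, X2 z)) Bk ≤ κ + m ∧
      Pool.KVA.MI Q N Bk (fun z => (X1 z, X2 z)) ≤ κ + m := by
  constructor
  · have a := mi_chain hQ Lk X1 X2 Bk
    change Pool.KVA.MI Q Lk (fun z => (X1 z, X2 z)) Bk = Pool.KVA.MI Q Lk X1 Bk +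
      Pool.KVA.MI Q Lk X2 (fun z => (X1 z, Bk z)) at a
    linarith
  · have a1 := mi_chain hQ N X2 Bk X1
    have a2 := mi_chain hQ N Bk X2 X1
    have a3 := mi_mono hQ N (fun z => (Bk z, X2 z)) (fun z => (X2 z, Bk z)) X1
      (fun _ _ _ _ h => by
        have e := Prod.ext_iff.mp (Prod.ext_iff.mp h).1
        exact Prod.ext e.2 e.1)
    have a4 := mi_nonneg hQ N X2 X1
    have a5 := mi_congr hQ N Bk (b := fun z => (X1 z, X2 z)) (b' := fun z => (X2 z, X1 z))
      (fun _ _ _ _ h => Prod.ext (Prod.ext_iff.mp h).2 (Prod.ext_iff.mp h).1)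
      (fun _ _ _ _ h => Prod.ext (Prod.ext_iff.mp h).2 (Prod.ext_iff.mp h).1)
    have a6 := mi_congr hQ N X2 (b := fun z => (Bk z, X1 z)) (b' := fun z => (X1 z, Bk z))
      (fun _ _ _ _ h => Prod.ext (Prod.ext_iff.mp h).2 (Prod.ext_iff.mp h).1)
      (fun _ _ _ _ h => Prod.ext (Prod.ext_iff.mp h).2 (Prod.ext_iff.mp h).1)
    have a7 := mi_mono_left hQ Lk N X2 (fun z => (X1 z, Bk z)) (fun z z' a b h => by
      have e := Prod.ext_iff.mp h
      exact h3 z z' a b (Prod.ext e.1 (Prod.ext_iff.mp e.2).1))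
    have b1 : Pool.OC.RS.mi Q N Bk X1 ≤ κ := h2
    have b2 : Pool.OC.RS.mi Q Lk X2 (fun z => (X1 z, Bk z)) ≤ m := h4
    change Pool.OC.RS.mi Q N Bk (fun z => (X1 z, X2 z)) ≤ κ + m
    linarith

/-! ### The scheme S -/

section S

variable (d : Dat c) {A : ℕ} (hok : d.OK A) {K : Fin c → d.Om → d.Om → ℝ}
  (hK : ∀ k, KR d (K k))

include hok hK

theorem kokS : KOk d.P K where
  law := hok.law
  nn := fun k => (hK k).nn
  one := fun k => (hK k).one

theorem S_fam : Pool.KVA.MI (QQ d.P K) (fun z => d.L z.1) (fun z j => d.T (z.2 j))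
      (fun z => ((d.vis z.1, d.T z.1), d.B z.1)) ≤ c * Pool.KVA.MI d.P d.T d.L d.B := by
  classical
  have hkok := kokS d hok hK
  set Q := QQ d.P K with hQ
  have hQ0 : ∀ z, 0 ≤ Q z := QQ_nonneg hkok
  have h1 := mi_fam hQ0 (fun z => d.L z.1) (fun j z => d.T (z.2 j))
    (fun z => ((d.vis z.1, d.T z.1), d.B z.1))
  refine h1.trans ?_
  have h2 : ∀ j : Fin c, CH Q (fun z => d.T (z.2 j)) (fun z => ((d.vis z.1, d.T z.1), d.B z.1)) -
      CH Q (fun z => d.T (z.2 j)) (fun z => (sel (fun j z => d.T (z.2 j)) (univ.erase j) z,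
        (d.L z.1, ((d.vis z.1, d.T z.1), d.B z.1)))) ≤ Pool.KVA.MI d.P d.T d.L d.B := by
    intro j
    have e1 : CH Q (fun z => d.T (z.2 j)) (fun z => ((d.vis z.1, d.T z.1), d.B z.1)) ≤
        CH Q (fun z => d.T (z.2 j)) (fun z => (d.T z.1, d.B z.1)) :=
      CH_mono_cond hQ0 fun _ _ _ _ h => by
        have e := Prod.ext_iff.mp h
        exact Prod.ext (Prod.ext_iff.mp e.1).2 e.2
    have e2 := (QQ_rs hkok j).CH_eq (fun z => d.T (z.2 j)) d.T
      (fun z x => by simp)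
      (fun z => (sel (fun j z => d.T (z.2 j)) (univ.erase j) z,
        (d.L z.1, ((d.vis z.1, d.T z.1), d.B z.1))))
      (fun z x => by
        exact Prod.ext (sel_inv (fun j (z : d.Om × (Fin c → d.Om)) => d.T (z.2 j)) j
          (ω := z) (ω' := (z.1, Function.update z.2 j x)) fun i hi => by simp [hi]) rfl)
      (fun z => (d.L z.1, d.T z.1)) (fun _ _ => rfl)
      (fun z z' _ _ h => by
        have e := Prod.ext_iff.mp (Prod.ext_iff.mp h).2
        exact Prod.ext e.1 (Prod.ext_iff.mp (Prod.ext_iff.mp e.2).1).2)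
      (fun z z' _ _ h t => by
        have e := Prod.ext_iff.mp h
        rw [(hK j).dep z.1 z'.1 e.1 e.2])
    have e3 := (QQ_pair hkok j).CH (fun w : d.Om × d.Om => d.T w.2) (fun w => (d.T w.1, d.B w.1))
    have e4 := (QQ_pair hkok j).CH (fun w : d.Om × d.Om => d.T w.2) (fun w => (d.L w.1, d.T w.1))
    simp only at e3 e4
    have e5 := (hK j).mi
    rw [e2]
    linarith
  refine (Finset.sum_le_sum fun j _ => h2 j).trans ?_
  rw [Finset.sum_const, Finset.card_univ, Fintype.card_fin, nsmul_eq_mul]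

/-- **The scheme S.** -/
theorem schS {ι : ℝ} (hι : 0 ≤ ι) (h1 : Pool.KVA.MI d.P d.T d.L d.B ≤ ι * d.X)
    (h7 : d.H7 ι) : Sch d (QQ d.P K) Prod.fst (fun _ v => v.1) (fun k v => v.2 k)
      (4 * c * ι) := by
  have hkok := kokS d hok hK
  have hQ0 : ∀ z, 0 ≤ QQ d.P K z := QQ_nonneg hkok
  have hX : (0 : ℝ) ≤ ι * d.X := mul_nonneg hι (Nat.cast_nonneg _)
  have hfst := QQ_fst hkok
  have main : ∀ _ : Fin c, Pool.KVA.MI (QQ d.P K) (fun z => d.L z.1)
        (xr d Prod.fst (fun k v => v.2 k)) (fun z => d.B z.1) ≤ 4 * c * ι * d.X ∧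
      Pool.KVA.MI (QQ d.P K) (fun z => d.N z.1) (fun z => d.B z.1)
        (xr d Prod.fst (fun k v => v.2 k)) ≤ 4 * c * ι * d.X := by
    intro k
    have hc : (1 : ℝ) ≤ c := by
      have : 0 < c := lt_of_le_of_lt (Nat.zero_le _) k.isLt
      exact_mod_cast this
    have a1 : Pool.KVA.MI (QQ d.P K) (fun z => d.L z.1) (fun z => (d.vis z.1, d.T z.1))
        (fun z => d.B z.1) ≤ ι * d.X := by
      rw [Marg.MI hfst d.L (fun ω => (d.vis ω, d.T ω)) d.B]
      have e1 := mi_mono hok.law.nonneg d.L d.T (fun ω => (d.vis ω, d.T ω)) d.B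
        (fun ω ω' a b h => by
          have e := Prod.ext_iff.mp h
          exact Prod.ext (hok.hv ω ω' a b (Prod.ext e.2 e.1)) e.1)
      have e2 := mi_comm hok.law.nonneg d.L d.T d.B
      change Pool.KVA.MI d.P d.L (fun ω => (d.vis ω, d.T ω)) d.B ≤
        Pool.KVA.MI d.P d.L d.T d.B at e1
      change Pool.KVA.MI d.P d.L d.T d.B = Pool.KVA.MI d.P d.T d.L d.B at e2
      linarith
    have a2 : Pool.KVA.MI (QQ d.P K) (fun z => d.N z.1) (fun z => d.B z.1)
        (fun z => (d.vis z.1, d.T z.1)) ≤ ι * d.X := by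
      rw [Marg.MI hfst d.N d.B (fun ω => (d.vis ω, d.T ω))]
      exact h7
    have a3 : Det (QQ d.P K) (fun z => (d.L z.1, (d.vis z.1, d.T z.1))) (fun z => d.N z.1) := by
      intro z z' hz hz' h
      have e := Prod.ext_iff.mp h
      exact hok.hN _ _ (QQ_pos hkok hz).1 (QQ_pos hkok hz').1
        (Prod.ext e.1 (Prod.ext_iff.mp e.2).2)
    have a4 := S_fam d hok hK
    have a5 : c * Pool.KVA.MI d.P d.T d.L d.B ≤ c * (ι * d.X) :=
      mul_le_mul_of_nonneg_left h1 (by positivity)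
    obtain ⟨b1, b2⟩ := core hQ0 (fun z => d.L z.1) (fun z => d.B z.1) (fun z => d.N z.1)
      (fun z => (d.vis z.1, d.T z.1)) (fun z j => d.T (z.2 j)) a1 a2 a3 (a4.trans a5)
    have b3 : ι * d.X + c * (ι * d.X) ≤ 4 * c * ι * d.X := by
      have : 1 * (ι * d.X) ≤ c * (ι * d.X) := mul_le_mul_of_nonneg_right hc hX
      have : 0 ≤ c * (ι * d.X) := mul_nonneg (by linarith) hX
      nlinarith
    exact ⟨b1.trans b3, b2.trans b3⟩
  refine ⟨QQ_law hkok, ?_, ?_, ?_, ?_, ?_, fun k => (main k).1, fun k => (main k).2⟩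
  · intro ω
    exact hfst ω
  · intro k ω
    exact hfst ω
  · intro k a
    have e1 := (QQ_pair hkok k).law (fun w : d.Om × d.Om => w.2) a
    change law (QQ d.P K) (fun z => z.2 k) a = d.P a
    refine e1.trans ?_
    classical
    unfold law
    rw [Fintype.sum_prod_type, ← (hK k).stat a]
    refine Finset.sum_congr rfl fun ω _ => ?_
    rw [Finset.sum_eq_single a]
    · rw [if_pos rfl]
    · intro b _ hb
      rw [if_neg]
      exact hb
    · intro h
      exact absurd (Finset.mem_univ _) h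
  · intro v _ k
    rfl
  · intro v hv k
    exact ((hK k).pos _ _ ((QQ_pos hkok hv).2 k)).2

end S

/-! ### The scheme D -/

section D

/-- The kernel of one reference of the scheme D. -/
noncomputable def kD (d : Dat c) (κ : d.Om → d.Om → ℝ) (ω : d.Om) (x : d.Om × d.Om) : ℝ :=
  d.pp ω x.1 * κ x.1 x.2

variable (d : Dat c) {A : ℕ} (hok : d.OK A) {K : Fin c → d.Om → d.Om → ℝ}
  (hK : ∀ k, KR d (K k))

theorem pp_pos (hl : IsLaw d.P) {ω w : d.Om} (h : 0 < d.pp ω w) :
    0 < d.P w ∧ d.pt w = d.pt ω := (cond_pos_iff hl.nonneg _ _ _).mp h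

theorem pp_nonneg (hl : IsLaw d.P) (ω w : d.Om) : 0 ≤ d.pp ω w := cond_nonneg hl.nonneg _ _ _

theorem pp_dep {ω ω' : d.Om} (h : d.pt ω = d.pt ω') : d.pp ω = d.pp ω' := by
  unfold Dat.pp
  rw [h]

include hok hK

theorem kD_inner (k : Fin c) (ω w : d.Om) :
    d.pp ω w * ∑ a, K k w a = d.pp ω w := by
  rcases (pp_nonneg d hok.law ω w).eq_or_lt with h0 | h0
  · rw [← h0, zero_mul]
  · rw [(hK k).one w (pp_pos d hok.law h0).1, mul_one]

theorem kokD : KOk d.P (fun k => kD d (K k)) where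
  law := hok.law
  nn := fun k ω x => mul_nonneg (pp_nonneg d hok.law _ _) ((hK k).nn _ _)
  one := fun k ω hω => by
    unfold kD
    rw [Fintype.sum_prod_type]
    simp only
    rw [Finset.sum_congr rfl fun w _ => (Finset.mul_sum _ _ _).symm,
      Finset.sum_congr rfl fun w _ => kD_inner d hok hK k ω w]
    exact sum_cond d.P _ (law_pos hok.law.nonneg _ hω).ne'

theorem D_pos {z : d.Om × (Fin c → d.Om × d.Om)} (hz : 0 < QQ d.P (fun k => kD d (K k)) z)
    (k : Fin c) : 0 < d.P z.1 ∧ 0 < d.P (z.2 k).1 ∧ d.pt (z.2 k).1 = d.pt z.1 ∧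
      d.L (z.2 k).2 = d.L (z.2 k).1 := by
  obtain ⟨h1, h2⟩ := QQ_pos (kokD d hok hK) hz
  have h3 := h2 k
  have h4 : 0 < d.pp z.1 (z.2 k).1 := by
    refine lt_of_le_of_ne (pp_nonneg d hok.law _ _) fun e => ?_
    unfold kD at h3
    rw [← e, zero_mul] at h3
    exact lt_irrefl _ h3
  have h5 : 0 < K k (z.2 k).1 (z.2 k).2 := by
    refine lt_of_le_of_ne ((hK k).nn _ _) fun e => ?_
    unfold kD at h3
    rw [← e, mul_zero] at h3
    exact lt_irrefl _ h3
  obtain ⟨h6, h7⟩ := pp_pos d hok.law h4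
  exact ⟨h1, h6, h7, ((hK k).pos _ _ h5).2⟩

theorem D_comp (k : Fin c) : Marg (QQ d.P (fun k => kD d (K k)))
    (fun x : d.Om × d.Om => d.P x.1 * K k x.1 x.2) (fun z => z.2 k) := by
  classical
  have h1 := QQ_pair (kokD d hok hK) k
  have h2 : Marg (fun w : d.Om × (d.Om × d.Om) => d.P w.1 * kD d (K k) w.1 w.2)
      (fun x : d.Om × d.Om => d.P x.1 * K k x.1 x.2) (fun w => w.2) := by
    rintro ⟨w, a⟩
    rw [Fintype.sum_prod_type]
    trans ∑ ω, d.P ω * d.pp ω w * K k w a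
    · refine Finset.sum_congr rfl fun ω _ => ?_
      rw [Finset.sum_eq_single (w, a)]
      · rw [if_pos rfl]
        unfold kD
        simp only
        ring
      · intro b _ hb
        rw [if_neg]
        exact hb
      · intro h
        exact absurd (Finset.mem_univ _) h
    · rw [← Finset.sum_mul, show ∑ ω, d.P ω * d.pp ω w = d.P w from
        cond_stat hok.law.nonneg d.pt w]
  exact h1.comp h2

theorem K_fst (k : Fin c) : Marg (fun x : d.Om × d.Om => d.P x.1 * K k x.1 x.2) d.P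
    (fun x => x.1) := by
  classical
  intro ω
  rw [Fintype.sum_prod_type, Finset.sum_eq_single ω]
  · simp only [if_true]
    rw [← Finset.mul_sum]
    rcases (hok.law.nonneg ω).eq_or_lt with h0 | h0
    · rw [← h0, zero_mul]
    · rw [(hK k).one ω h0, mul_one]
  · intro b _ hb
    refine Finset.sum_eq_zero fun a _ => ?_
    rw [if_neg]
    exact hb
  · intro h
    exact absurd (Finset.mem_univ _) h

omit hok in
theorem K_snd (k : Fin c) : Marg (fun x : d.Om × d.Om => d.P x.1 * K k x.1 x.2) d.P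
    (fun x => x.2) := by
  classical
  intro a
  rw [Fintype.sum_prod_type, ← (hK k).stat a]
  refine Finset.sum_congr rfl fun ω _ => ?_
  rw [Finset.sum_eq_single a]
  · rw [if_pos rfl]
  · intro b _ hb
    rw [if_neg]
    exact hb
  · intro h
    exact absurd (Finset.mem_univ _) h

/-- Resampling of the reference only. -/
theorem D_rs (k : Fin c) : Rs (QQ d.P (fun k => kD d (K k))) (fun z x => K k (z.2 k).1 x)
    (fun z x => (z.1, Function.update z.2 k ((z.2 k).1, x))) := by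
  classical
  have hkok := kokD d hok hK
  refine ⟨QQ_nonneg hkok, fun F => ?_⟩
  rw [(QQ_rs hkok k).eq F, (QQ_rs hkok k).eq (fun z => ∑ x, K k (z.2 k).1 x *
    F (z.1, Function.update z.2 k ((z.2 k).1, x)))]
  refine Finset.sum_congr rfl fun z _ => ?_
  congr 1
  simp only [Function.update_self, Function.update_idem]
  rw [Fintype.sum_prod_type, Fintype.sum_prod_type]
  refine Finset.sum_congr rfl fun w _ => ?_
  unfold kD
  simp only
  rw [← Finset.sum_mul, ← Finset.mul_sum, kD_inner d hok hK k z.1 w, Finset.mul_sum]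
  refine Finset.sum_congr rfl fun x _ => ?_
  ring

/-- The time of the reference, given the line and the time. -/
theorem D_ref {S : Type} (k : Fin c) (W : d.Om × (Fin c → d.Om × d.Om) → S)
    (hW : ∀ z x, W (z.1, Function.update z.2 k ((z.2 k).1, x)) = W z)
    (hd : Det (QQ d.P (fun k => kD d (K k))) W (fun z => (d.L (z.2 k).1, d.T (z.2 k).1))) :
    CH (QQ d.P (fun k => kD d (K k))) (fun z => d.T (z.2 k).2) W =
      CH (fun w : d.Om × d.Om => d.P w.1 * K k w.1 w.2) (fun w => d.T w.2)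
        (fun w => (d.L w.1, d.T w.1)) := by
  rw [(D_rs d hok hK k).CH_eq (fun z => d.T (z.2 k).2) d.T (fun z x => by simp) W hW
    (fun z => (d.L (z.2 k).1, d.T (z.2 k).1)) (fun z x => by simp) hd
    (fun z z' _ _ h t => by
      have e := Prod.ext_iff.mp h
      rw [(hK k).dep _ _ e.1 e.2])]
  exact (D_comp d hok hK k).CH (fun w : d.Om × d.Om => d.T w.2) (fun w => (d.L w.1, d.T w.1))

/-- The time of the reference, given the context and the time. -/
theorem D_ref' {S : Type} (k : Fin c) (W : d.Om × (Fin c → d.Om × d.Om) → S)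
    (hd : Det (QQ d.P (fun k => kD d (K k))) W (fun z => (d.T (z.2 k).1, d.B (z.2 k).1))) :
    CH (QQ d.P (fun k => kD d (K k))) (fun z => d.T (z.2 k).2) W ≤
      CH (fun w : d.Om × d.Om => d.P w.1 * K k w.1 w.2) (fun w => d.T w.2)
        (fun w => (d.T w.1, d.B w.1)) := by
  have h1 := (D_comp d hok hK k).CH (fun w : d.Om × d.Om => d.T w.2)
    (fun w => (d.T w.1, d.B w.1))
  have h2 := CH_mono_cond (QQ_nonneg (kokD d hok hK)) (X := fun z => d.T (z.2 k).2) hd
  linarith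

/-- The normal position and the context of the line `k`. -/
theorem D_mn (k : Fin c) {ι : ℝ} (h7 : d.H7 ι) :
    Pool.KVA.MI (QQ d.P (fun k => kD d (K k))) (fun z => d.N z.1) (fun z => d.B (z.2 k).1)
      (fun z => (d.vis z.1, d.T z.1)) ≤ ι * d.X := by
  have hQ0 := QQ_nonneg (kokD d hok hK)
  have hpt : ∀ z, 0 < QQ d.P (fun k => kD d (K k)) z → d.vis (z.2 k).1 = d.vis z.1 ∧
      d.N (z.2 k).1 = d.N z.1 ∧ d.T (z.2 k).1 = d.T z.1 := by
    intro z hz
    have h := (D_pos d hok hK hz k).2.2.1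
    have h1 := Prod.ext_iff.mp h
    exact ⟨h1.1, Prod.ext_iff.mp h1.2⟩
  have e1 := mi_mono_left hQ0 (fun z => d.N (z.2 k).1) (fun z => d.N z.1)
    (fun z => d.B (z.2 k).1) (fun z => (d.vis z.1, d.T z.1)) (fun z z' hz hz' h => by
      have e : d.N (z.2 k).1 = d.N (z'.2 k).1 := (Prod.ext_iff.mp h).1
      rw [(hpt z hz).2.1, (hpt z' hz').2.1] at e
      exact e)
  have e2 := mi_congr hQ0 (fun z => d.N (z.2 k).1) (fun z => d.B (z.2 k).1)
    (b := fun z => (d.vis z.1, d.T z.1)) (b' := fun z => (d.vis (z.2 k).1, d.T (z.2 k).1))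
    (fun z z' hz hz' h => by
      have e := Prod.ext_iff.mp h
      obtain ⟨a1, -, a2⟩ := hpt z hz
      obtain ⟨b1, -, b2⟩ := hpt z' hz'
      change (d.vis (z.2 k).1, d.T (z.2 k).1) = (d.vis (z'.2 k).1, d.T (z'.2 k).1)
      rw [a1, a2, b1, b2]
      exact h)
    (fun z z' hz hz' h => by
      obtain ⟨a1, -, a2⟩ := hpt z hz
      obtain ⟨b1, -, b2⟩ := hpt z' hz'
      change (d.vis z.1, d.T z.1) = (d.vis z'.1, d.T z'.1)
      rw [← a1, ← a2, ← b1, ← b2]
      exact h)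
  have e3 := Marg.MI ((D_comp d hok hK k).comp (K_fst d hok hK k)) d.N d.B
    (fun ω => (d.vis ω, d.T ω))
  have e4 : Pool.KVA.MI d.P d.N d.B (fun ω => (d.vis ω, d.T ω)) ≤ ι * d.X := h7
  change Pool.KVA.MI (QQ d.P (fun k => kD d (K k))) (fun z => d.N z.1)
    (fun z => d.B (z.2 k).1) (fun z => (d.vis z.1, d.T z.1)) ≤ _ at e1
  refine e1.trans ?_
  change Pool.OC.RS.mi (QQ d.P (fun k => kD d (K k))) (fun z => d.N (z.2 k).1)
    (fun z => d.B (z.2 k).1) (fun z => (d.vis z.1, d.T z.1)) ≤ _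
  rw [e2]
  exact (le_of_eq e3).trans e4

theorem D_det (k : Fin c) : Det (QQ d.P (fun k => kD d (K k)))
    (fun z => (d.L (z.2 k).1, (d.vis z.1, d.T z.1))) (fun z => d.N z.1) := by
  intro z z' hz hz' h
  have e := Prod.ext_iff.mp h
  obtain ⟨a1, a2, a3, a4⟩ := D_pos d hok hK hz k
  obtain ⟨b1, b2, b3, b4⟩ := D_pos d hok hK hz' k
  have a5 := Prod.ext_iff.mp (Prod.ext_iff.mp a3).2
  have b5 := Prod.ext_iff.mp (Prod.ext_iff.mp b3).2
  have e2 : d.T z.1 = d.T z'.1 := (Prod.ext_iff.mp e.2).2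
  have a6 : d.T (z.2 k).1 = d.T z.1 := a5.2
  have b6 : d.T (z'.2 k).1 = d.T z'.1 := b5.2
  have a7 : d.N (z.2 k).1 = d.N z.1 := a5.1
  have b7 : d.N (z'.2 k).1 = d.N z'.1 := b5.1
  change d.N z.1 = d.N z'.1
  rw [← a7, ← b7]
  refine hok.hN _ _ a2 b2 (Prod.ext e.1 ?_)
  change d.T (z.2 k).1 = d.T (z'.2 k).1
  rw [a6, b6, e2]

/-- The time of a reference on another line. -/
theorem D_oth (j : Fin c) {ι : ℝ} (h1 : Pool.KVA.MI d.P d.T d.L d.B ≤ ι * d.X)
    (h7 : d.H7 ι) :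
    CH (QQ d.P (fun k => kD d (K k))) (fun z => d.T (z.2 j).2) (fun z => (d.vis z.1, d.T z.1)) -
      CH (QQ d.P (fun k => kD d (K k))) (fun z => d.T (z.2 j).2) (fun z => d.pt z.1) ≤
      2 * (ι * d.X) := by
  have hQ0 := QQ_nonneg (kokD d hok hK)
  set Q := QQ d.P (fun k => kD d (K k)) with hQ
  have e1 : CH Q (fun z => d.T (z.2 j).2) (fun z => d.pt z.1) =
      CH Q (fun z => d.T (z.2 j).2) (fun z => (d.N z.1, (d.vis z.1, d.T z.1))) := by
    refine CH_congr hQ0 (fun _ _ _ _ h => (Prod.ext_iff.mp h).1)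
      (fun _ _ _ _ h => (Prod.ext_iff.mp h).1) ?_ ?_
    · intro z z' _ _ h
      have a := Prod.ext_iff.mp h
      have b := Prod.ext_iff.mp a.2
      exact Prod.ext b.1 (Prod.ext a.1 b.2)
    · intro z z' _ _ h
      have a := Prod.ext_iff.mp h
      have b := Prod.ext_iff.mp a.2
      exact Prod.ext b.1 (Prod.ext a.1 b.2)
  rw [e1, ← mi_eq' hQ0 (fun z => d.N z.1) (fun z => d.T (z.2 j).2)
    (fun z => (d.vis z.1, d.T z.1))]
  have e2 := mi_mono hQ0 (fun z => d.N z.1) (fun z => (d.B (z.2 j).1, d.T (z.2 j).2))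
    (fun z => d.T (z.2 j).2) (fun z => (d.vis z.1, d.T z.1))
    (fun _ _ _ _ h => (Prod.ext_iff.mp (Prod.ext_iff.mp h).1).2)
  have e3 := mi_chain hQ0 (fun z => d.N z.1) (fun z => d.B (z.2 j).1)
    (fun z => d.T (z.2 j).2) (fun z => (d.vis z.1, d.T z.1))
  have e4 := D_mn d hok hK j h7
  have e5 := mi_mono_left hQ0 (fun z => d.L (z.2 j).1) (fun z => d.N z.1)
    (fun z => d.T (z.2 j).2) (fun z => (d.B (z.2 j).1, (d.vis z.1, d.T z.1)))
    (fun z z' a b h => by
      have e := Prod.ext_iff.mp h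
      exact D_det d hok hK j z z' a b (Prod.ext e.1 (Prod.ext_iff.mp e.2).2))
  have e6 := mi_eq' hQ0 (fun z => d.L (z.2 j).1) (fun z => d.T (z.2 j).2)
    (fun z => (d.B (z.2 j).1, (d.vis z.1, d.T z.1)))
  have hT : ∀ z, 0 < Q z → d.T (z.2 j).1 = d.T z.1 := fun z hz =>
    (Prod.ext_iff.mp (Prod.ext_iff.mp (D_pos d hok hK hz j).2.2.1).2).2
  have e7 := D_ref' d hok hK j (fun z => (d.B (z.2 j).1, (d.vis z.1, d.T z.1)))
    (fun z z' hz hz' h => by
      have e := Prod.ext_iff.mp h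
      have e' : d.T z.1 = d.T z'.1 := (Prod.ext_iff.mp e.2).2
      refine Prod.ext ?_ e.1
      change d.T (z.2 j).1 = d.T (z'.2 j).1
      rw [hT z hz, hT z' hz', e'])
  have e8 := D_ref d hok hK j
    (fun z => (d.L (z.2 j).1, (d.B (z.2 j).1, (d.vis z.1, d.T z.1))))
    (fun z x => by simp)
    (fun z z' hz hz' h => by
      have e := Prod.ext_iff.mp h
      have e' : d.T z.1 = d.T z'.1 := (Prod.ext_iff.mp (Prod.ext_iff.mp e.2).2).2
      refine Prod.ext e.1 ?_
      change d.T (z.2 j).1 = d.T (z'.2 j).1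
      rw [hT z hz, hT z' hz', e'])
  have e9 := (hK j).mi
  change Pool.OC.RS.mi Q (fun z => d.N z.1) (fun z => d.B (z.2 j).1)
    (fun z => (d.vis z.1, d.T z.1)) ≤ _ at e4
  linarith

theorem D_fam (k : Fin c) {ι : ℝ} (hι : 0 ≤ ι)
    (h1 : Pool.KVA.MI d.P d.T d.L d.B ≤ ι * d.X) (h7 : d.H7 ι) :
    Pool.KVA.MI (QQ d.P (fun k => kD d (K k))) (fun z => d.L (z.2 k).1)
      (fun z j => d.T (z.2 j).2) (fun z => ((d.vis z.1, d.T z.1), d.B (z.2 k).1)) ≤
      c * (2 * (ι * d.X)) := by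
  classical
  have hkok := kokD d hok hK
  have hX : (0 : ℝ) ≤ ι * d.X := mul_nonneg hι (Nat.cast_nonneg _)
  set Q := QQ d.P (fun k => kD d (K k)) with hQ
  have hQ0 : ∀ z, 0 ≤ Q z := QQ_nonneg hkok
  have h2 := mi_fam hQ0 (fun z => d.L (z.2 k).1) (fun j z => d.T (z.2 j).2)
    (fun z => ((d.vis z.1, d.T z.1), d.B (z.2 k).1))
  refine h2.trans ?_
  have hT : ∀ z, 0 < Q z → d.T (z.2 k).1 = d.T z.1 := fun z hz =>
    (Prod.ext_iff.mp (Prod.ext_iff.mp (D_pos d hok hK hz k).2.2.1).2).2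
  have h3 : ∀ j : Fin c, CH Q (fun z => d.T (z.2 j).2)
      (fun z => ((d.vis z.1, d.T z.1), d.B (z.2 k).1)) -
      CH Q (fun z => d.T (z.2 j).2) (fun z => (sel (fun j z => d.T (z.2 j).2) (univ.erase j) z,
        (d.L (z.2 k).1, ((d.vis z.1, d.T z.1), d.B (z.2 k).1)))) ≤ 2 * (ι * d.X) := by
    intro j
    by_cases hj : k = j
    · subst hj
      have e7 := D_ref' d hok hK k (fun z => ((d.vis z.1, d.T z.1), d.B (z.2 k).1))
        (fun z z' hz hz' h => by
          have e := Prod.ext_iff.mp h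
          have e' : d.T z.1 = d.T z'.1 := (Prod.ext_iff.mp e.1).2
          refine Prod.ext ?_ e.2
          change d.T (z.2 k).1 = d.T (z'.2 k).1
          rw [hT z hz, hT z' hz', e'])
      have e8 := D_ref d hok hK k
        (fun z => (sel (fun j z => d.T (z.2 j).2) (univ.erase k) z,
          (d.L (z.2 k).1, ((d.vis z.1, d.T z.1), d.B (z.2 k).1))))
        (fun z x => Prod.ext (sel_inv (fun j (z : d.Om × (Fin c → d.Om × d.Om)) =>
          d.T (z.2 j).2) k (ω := z) (ω' := (z.1, Function.update z.2 k ((z.2 k).1, x)))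
          fun i hi => by simp [hi]) (by simp))
        (fun z z' hz hz' h => by
          have e := Prod.ext_iff.mp (Prod.ext_iff.mp h).2
          have e' : d.T z.1 = d.T z'.1 := (Prod.ext_iff.mp (Prod.ext_iff.mp e.2).1).2
          refine Prod.ext e.1 ?_
          change d.T (z.2 k).1 = d.T (z'.2 k).1
          rw [hT z hz, hT z' hz', e'])
      have e9 := (hK k).mi
      rw [e8]
      linarith
    · have e1 := D_oth d hok hK j h1 h7
      have e2 : CH Q (fun z => d.T (z.2 j).2)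
          (fun z => ((d.vis z.1, d.T z.1), d.B (z.2 k).1)) ≤
          CH Q (fun z => d.T (z.2 j).2) (fun z => (d.vis z.1, d.T z.1)) :=
        CH_mono_cond hQ0 fun _ _ _ _ h => (Prod.ext_iff.mp h).1
      have e3 : CH Q (fun z => d.T (z.2 j).2) (fun z => (d.pt z.1,
          (sel (fun j z => d.T (z.2 j).2) (univ.erase j) z,
          (d.L (z.2 k).1, ((d.vis z.1, d.T z.1), d.B (z.2 k).1))))) ≤
          CH Q (fun z => d.T (z.2 j).2) (fun z => (sel (fun j z => d.T (z.2 j).2)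
            (univ.erase j) z, (d.L (z.2 k).1, ((d.vis z.1, d.T z.1), d.B (z.2 k).1)))) :=
        CH_mono_cond hQ0 fun _ _ _ _ h => (Prod.ext_iff.mp h).2
      have e4 := (QQ_rs hkok j).CH_eq (fun z => d.T (z.2 j).2) (fun x => d.T x.2)
        (fun z x => by simp)
        (fun z => (d.pt z.1, (sel (fun j z => d.T (z.2 j).2) (univ.erase j) z,
          (d.L (z.2 k).1, ((d.vis z.1, d.T z.1), d.B (z.2 k).1)))))
        (fun z x => by
          have e5 := sel_inv (fun j (z : d.Om × (Fin c → d.Om × d.Om)) => d.T (z.2 j).2) j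
            (ω := z) (ω' := (z.1, Function.update z.2 j x)) fun i hi => by simp [hi]
          refine Prod.ext rfl (Prod.ext e5 ?_)
          simp [hj])
        (fun z => d.pt z.1) (fun _ _ => rfl)
        (fun _ _ _ _ h => (Prod.ext_iff.mp h).1)
        (fun z z' _ _ h t => by
          have : kD d (K j) z.1 = kD d (K j) z'.1 := by
            funext x
            unfold kD
            rw [pp_dep d h]
          rw [this])
      linarith
  refine (Finset.sum_le_sum fun j _ => h3 j).trans ?_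
  rw [Finset.sum_const, Finset.card_univ, Fintype.card_fin, nsmul_eq_mul]

/-- **The scheme D.** -/
theorem schD {ι : ℝ} (hι : 0 ≤ ι) (h1 : Pool.KVA.MI d.P d.T d.L d.B ≤ ι * d.X)
    (h7 : d.H7 ι) : Sch d (QQ d.P (fun k => kD d (K k))) Prod.fst (fun k v => (v.2 k).1)
      (fun k v => (v.2 k).2) (4 * c * ι) := by
  have hkok := kokD d hok hK
  have hQ0 : ∀ z, 0 ≤ QQ d.P (fun k => kD d (K k)) z := QQ_nonneg hkok
  have hX : (0 : ℝ) ≤ ι * d.X := mul_nonneg hι (Nat.cast_nonneg _)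
  have main : ∀ k : Fin c, Pool.KVA.MI (QQ d.P (fun k => kD d (K k)))
        (fun z => d.L (z.2 k).1)
        (xr d Prod.fst (fun k v => (v.2 k).2)) (fun z => d.B (z.2 k).1) ≤ 4 * c * ι * d.X ∧
      Pool.KVA.MI (QQ d.P (fun k => kD d (K k))) (fun z => d.N z.1)
        (fun z => d.B (z.2 k).1) (xr d Prod.fst (fun k v => (v.2 k).2)) ≤
        4 * c * ι * d.X := by
    intro k
    have hc : (1 : ℝ) ≤ c := by
      have : 0 < c := lt_of_le_of_lt (Nat.zero_le _) k.isLt
      exact_mod_cast this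
    have a1 : Pool.KVA.MI (QQ d.P (fun k => kD d (K k))) (fun z => d.L (z.2 k).1)
        (fun z => (d.vis z.1, d.T z.1)) (fun z => d.B (z.2 k).1) ≤ ι * d.X := by
      have e1 := mi_mono hQ0 (fun z => d.L (z.2 k).1) (fun z => d.T (z.2 k).1)
        (fun z => (d.vis z.1, d.T z.1)) (fun z => d.B (z.2 k).1)
        (fun z z' hz hz' h => by
          have e := Prod.ext_iff.mp h
          obtain ⟨-, a2, a3, -⟩ := D_pos d hok hK hz k
          obtain ⟨-, b2, b3, -⟩ := D_pos d hok hK hz' k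
          have a4 := Prod.ext_iff.mp a3
          have b4 := Prod.ext_iff.mp b3
          have a5 : d.vis (z.2 k).1 = d.vis z.1 := a4.1
          have b5 : d.vis (z'.2 k).1 = d.vis z'.1 := b4.1
          have a6 : d.T (z.2 k).1 = d.T z.1 := (Prod.ext_iff.mp a4.2).2
          have b6 : d.T (z'.2 k).1 = d.T z'.1 := (Prod.ext_iff.mp b4.2).2
          change (d.vis z.1, d.T z.1) = (d.vis z'.1, d.T z'.1)
          rw [← a5, ← b5, ← a6, ← b6]
          exact Prod.ext (hok.hv _ _ a2 b2 (Prod.ext e.2 e.1)) e.1)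
      have e2 := Marg.MI ((D_comp d hok hK k).comp (K_fst d hok hK k)) d.L d.T d.B
      have e3 := mi_comm hok.law.nonneg d.L d.T d.B
      change Pool.KVA.MI d.P d.L d.T d.B = Pool.KVA.MI d.P d.T d.L d.B at e3
      change Pool.KVA.MI (QQ d.P (fun k => kD d (K k))) (fun z => d.L (z.2 k).1)
        (fun z => (d.vis z.1, d.T z.1)) (fun z => d.B (z.2 k).1) ≤
        Pool.KVA.MI (QQ d.P (fun k => kD d (K k))) (fun z => d.L (z.2 k).1)
        (fun z => d.T (z.2 k).1) (fun z => d.B (z.2 k).1) at e1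
      linarith
    have a2 := D_mn d hok hK k h7
    have a3 := D_det d hok hK k
    have a4 := D_fam d hok hK k hι h1 h7
    obtain ⟨b1, b2⟩ := core hQ0 (fun z => d.L (z.2 k).1) (fun z => d.B (z.2 k).1)
      (fun z => d.N z.1) (fun z => (d.vis z.1, d.T z.1)) (fun z j => d.T (z.2 j).2) a1 a2 a3 a4
    have b3 : ι * d.X + c * (2 * (ι * d.X)) ≤ 4 * c * ι * d.X := by
      have : 1 * (ι * d.X) ≤ c * (ι * d.X) := mul_le_mul_of_nonneg_right hc hX
      have : 0 ≤ c * (ι * d.X) := mul_nonneg (by linarith) hX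
      nlinarith
    exact ⟨b1.trans b3, b2.trans b3⟩
  refine ⟨QQ_law hkok, ?_, ?_, ?_, ?_, ?_, fun k => (main k).1, fun k => (main k).2⟩
  · intro ω
    exact (QQ_fst hkok) ω
  · intro k ω
    exact ((D_comp d hok hK k).comp (K_fst d hok hK k)) ω
  · intro k ω
    exact ((D_comp d hok hK k).comp (K_snd d hK k)) ω
  · intro v hv k
    exact (D_pos d hok hK hv k).2.2.1
  · intro v hv k
    exact (D_pos d hok hK hv k).2.2.2

end D

end Pool.OCV.SC

namespace Pool.OCV

/-- **(SCH)** -/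
theorem sch_thm (c : ℕ) : SCHStmt c := by
  intro A d ι n s hok hn hι h1 h7
  exact ⟨SC.schS d hok (fun k => SC.ker_kr d hok.law hn (s k)) hι h1.1 h7,
    SC.schD d hok (fun k => SC.ker_kr d hok.law hn (s k)) hι h1.1 h7⟩

end Pool.OCV
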