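import Pool.Agent.H50.OCV.Rs

/-!
# Schemes of references: the kernels

The reference on the line of a sample has the law `gk`: the mean of the conditional laws given the
line and one of several labels of the time. The time of the reference has at most as much
information on the line, given the context and the time of the sample, as the time of the sample
itself.
-/

set_option autoImplicit false

namespace Pool.OCV.SC

open Finset Real
open Pool.Agent.H49.Ent Pool.Agent.H32.Dense Pool.STK Pool.KAF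
open Pool.OC.RS (mi_eq mi_comm mi_eq' mi_nonneg mi_congr mi_chain mi_mono mi_mono_left)

section Ker

variable {Ω Lm Th Bt : Type} [Fintype Ω] (P : Ω → ℝ) (L : Ω → Lm) (T : Ω → Th) {m : ℕ}
  (τ : Fin m → Th → ℤ)

/-- The label. -/
def lbi (i : Fin m) (ω : Ω) : Lm × ℤ := (L ω, τ i (T ω))

/-- The law given the label. -/
noncomputable def ck (i : Fin m) (ω a : Ω) : ℝ := cond P (lbi L T τ i) (lbi L T τ i ω) a

/-- The kernel. -/
noncomputable def gk (ω a : Ω) : ℝ := (∑ i, ck P L T τ i ω a) / m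

variable {P}

theorem ck_nonneg (hp : ∀ ω, 0 ≤ P ω) (i : Fin m) (ω a : Ω) : 0 ≤ ck P L T τ i ω a :=
  cond_nonneg hp _ _ _

theorem ck_sum (hp : ∀ ω, 0 ≤ P ω) (i : Fin m) {ω : Ω} (hω : 0 < P ω) :
    ∑ a, ck P L T τ i ω a = 1 := sum_cond P _ (law_pos hp _ hω).ne'

theorem ck_pos (hp : ∀ ω, 0 ≤ P ω) {i : Fin m} {ω a : Ω} (h : 0 < ck P L T τ i ω a) :
    0 < P a ∧ lbi L T τ i a = lbi L T τ i ω := (cond_pos_iff hp _ _ _).mp h

theorem cond_stat {S : Type} (hp : ∀ ω, 0 ≤ P ω) (A : Ω → S) (a : Ω) :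
    ∑ ω, P ω * cond P A (A ω) a = P a := by
  classical
  have e1 : ∀ ω, P ω * cond P A (A ω) a =
      (if A ω = A a then P ω else 0) * (P a / law P A (A a)) := by
    intro ω
    unfold Pool.Agent.H49.Ent.cond
    by_cases h : A a = A ω
    · rw [if_pos h, if_pos h.symm, h]
    · rw [if_neg h, if_neg (Ne.symm h), mul_zero, zero_mul]
  rw [Finset.sum_congr rfl fun ω _ => e1 ω, ← Finset.sum_mul]
  have e2 : (∑ ω, if A ω = A a then P ω else 0) = law P A (A a) := rfl
  rw [e2]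
  rcases (hp a).eq_or_lt with h0 | h0
  · rw [← h0, zero_div, mul_zero]
  · rw [mul_div_cancel₀ _ (law_pos hp A h0).ne']

theorem ck_stat (hp : ∀ ω, 0 ≤ P ω) (i : Fin m) (a : Ω) :
    ∑ ω, P ω * ck P L T τ i ω a = P a := cond_stat hp _ a

theorem ck_dep (i : Fin m) {ω ω' : Ω} (h : lbi L T τ i ω = lbi L T τ i ω') :
    ck P L T τ i ω = ck P L T τ i ω' := by
  funext a
  unfold ck
  rw [h]

theorem gk_nonneg (hp : ∀ ω, 0 ≤ P ω) (ω a : Ω) : 0 ≤ gk P L T τ ω a :=
  div_nonneg (Finset.sum_nonneg fun i _ => ck_nonneg L T τ hp i ω a) (Nat.cast_nonneg _)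

theorem gk_sum (hp : ∀ ω, 0 ≤ P ω) (hm : 1 ≤ m) {ω : Ω} (hω : 0 < P ω) :
    ∑ a, gk P L T τ ω a = 1 := by
  unfold gk
  rw [← Finset.sum_div, Finset.sum_comm, Finset.sum_congr rfl fun i _ => ck_sum L T τ hp i hω,
    Finset.sum_const, Finset.card_univ, Fintype.card_fin, nsmul_eq_mul, mul_one,
    div_self (by exact_mod_cast (by omega : m ≠ 0))]

theorem gk_pos (hp : ∀ ω, 0 ≤ P ω) {ω a : Ω} (h : 0 < gk P L T τ ω a) :
    0 < P a ∧ L a = L ω := by
  unfold gk at h
  have h1 : 0 < ∑ i, ck P L T τ i ω a := by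
    by_contra hcon
    have h0 : ∑ i, ck P L T τ i ω a = 0 := le_antisymm (not_lt.mp hcon)
      (Finset.sum_nonneg fun i _ => ck_nonneg L T τ hp i ω a)
    rw [h0, zero_div] at h
    exact lt_irrefl _ h
  obtain ⟨i, -, hi⟩ := Finset.exists_lt_of_sum_lt (s := univ) (f := fun _ : Fin m => (0 : ℝ))
    (g := fun i => ck P L T τ i ω a) (by simpa using h1)
  obtain ⟨h2, h3⟩ := ck_pos L T τ hp hi
  exact ⟨h2, (Prod.ext_iff.mp h3).1⟩

theorem gk_stat (hp : ∀ ω, 0 ≤ P ω) (hm : 1 ≤ m) (a : Ω) :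
    ∑ ω, P ω * gk P L T τ ω a = P a := by
  unfold gk
  have e1 : ∀ ω, P ω * ((∑ i, ck P L T τ i ω a) / m) = (∑ i, P ω * ck P L T τ i ω a) / m := by
    intro ω
    rw [← Finset.mul_sum, mul_div_assoc]
  rw [Finset.sum_congr rfl fun ω _ => e1 ω, ← Finset.sum_div, Finset.sum_comm,
    Finset.sum_congr rfl fun i _ => ck_stat L T τ hp i a, Finset.sum_const, Finset.card_univ,
    Fintype.card_fin, nsmul_eq_mul, mul_div_cancel_left₀ _ (by exact_mod_cast (by omega : m ≠ 0))]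

theorem gk_dep {ω ω' : Ω} (h : L ω = L ω') (h' : T ω = T ω') :
    gk P L T τ ω = gk P L T τ ω' := by
  funext a
  unfold gk
  congr 1
  refine Finset.sum_congr rfl fun i _ => ?_
  rw [ck_dep L T τ i (show lbi L T τ i ω = lbi L T τ i ω' by unfold lbi; rw [h, h'])]

/-- The sample, the reference and the number of the label. -/
noncomputable def Qh (P : Ω → ℝ) (L : Ω → Lm) (T : Ω → Th) (τ : Fin m → Th → ℤ)
    (z : Ω × (Ω × Fin m)) : ℝ := P z.1 * (ck P L T τ z.2.2 z.1 z.2.1 / m)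

theorem Qh_nonneg (hp : ∀ ω, 0 ≤ P ω) (z : Ω × (Ω × Fin m)) : 0 ≤ Qh P L T τ z :=
  mul_nonneg (hp _) (div_nonneg (ck_nonneg L T τ hp _ _ _) (Nat.cast_nonneg _))

theorem Qh_pos (hp : ∀ ω, 0 ≤ P ω) {z : Ω × (Ω × Fin m)} (h : 0 < Qh P L T τ z) :
    0 < P z.1 ∧ 0 < P z.2.1 ∧ lbi L T τ z.2.2 z.2.1 = lbi L T τ z.2.2 z.1 := by
  unfold Qh at h
  have h1 : 0 < P z.1 := by
    refine lt_of_le_of_ne (hp _) fun e => ?_
    rw [← e, zero_mul] at h
    exact lt_irrefl _ h
  have h2 : 0 < ck P L T τ z.2.2 z.1 z.2.1 := by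
    refine lt_of_le_of_ne (ck_nonneg L T τ hp _ _ _) fun e => ?_
    rw [← e, zero_div, mul_zero] at h
    exact lt_irrefl _ h
  exact ⟨h1, ck_pos L T τ hp h2⟩

theorem Qh_q : Marg (Qh P L T τ) (fun w : Ω × Ω => P w.1 * gk P L T τ w.1 w.2)
    fun z => (z.1, z.2.1) := by
  classical
  rintro ⟨ω, a⟩
  rw [Fintype.sum_prod_type, Finset.sum_eq_single ω]
  · rw [Fintype.sum_prod_type, Finset.sum_eq_single a]
    · simp only [if_true]
      unfold Qh gk
      simp only
      rw [← Finset.mul_sum, Finset.sum_div]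
    · intro b _ hb
      refine Finset.sum_eq_zero fun i _ => ?_
      rw [if_neg]
      intro e
      exact hb (Prod.ext_iff.mp e).2
    · intro h
      exact absurd (Finset.mem_univ _) h
  · intro b _ hb
    refine Finset.sum_eq_zero fun i _ => ?_
    rw [if_neg]
    intro e
    exact hb (Prod.ext_iff.mp e).1
  · intro h
    exact absurd (Finset.mem_univ _) h

theorem Qh_snd (hp : ∀ ω, 0 ≤ P ω) :
    Marg (Qh P L T τ) (fun y : Ω × Fin m => P y.1 / m) fun z => z.2 := by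
  classical
  rintro ⟨a, i⟩
  rw [Fintype.sum_prod_type]
  trans ∑ ω, P ω * ck P L T τ i ω a / m
  · refine Finset.sum_congr rfl fun ω _ => ?_
    rw [Finset.sum_eq_single (a, i)]
    · rw [if_pos rfl]
      unfold Qh
      simp only
      rw [mul_div_assoc]
    · intro b _ hb
      rw [if_neg]
      exact hb
    · intro h
      exact absurd (Finset.mem_univ _) h
  · rw [← Finset.sum_div, ck_stat L T τ hp]

/-- Resampling of the reference. -/
theorem Qh_rs1 (hp : ∀ ω, 0 ≤ P ω) : Rs (Qh P L T τ) (fun z x => ck P L T τ z.2.2 z.1 x)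
    (fun z x => (z.1, (x, z.2.2))) := by
  refine ⟨Qh_nonneg L T τ hp, fun F => ?_⟩
  rw [Fintype.sum_prod_type, Fintype.sum_prod_type]
  refine Finset.sum_congr rfl fun ω _ => ?_
  rw [Fintype.sum_prod_type, Fintype.sum_prod_type, Finset.sum_comm]
  conv_rhs => rw [Finset.sum_comm]
  refine Finset.sum_congr rfl fun i _ => ?_
  unfold Qh
  simp only
  rcases (hp ω).eq_or_lt with h0 | h0
  · simp [← h0]
  · rw [← Finset.sum_mul, ← Finset.mul_sum, ← Finset.sum_div, ck_sum L T τ hp i h0,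
      Finset.mul_sum]
    refine Finset.sum_congr rfl fun a _ => ?_
    ring

/-- Resampling of the reference and of the label. -/
theorem Qh_rs2 (hp : ∀ ω, 0 ≤ P ω) (hm : 1 ≤ m) :
    Rs (Qh P L T τ) (fun z (x : Ω × Fin m) => ck P L T τ x.2 z.1 x.1 / m)
    (fun z x => (z.1, x)) := by
  refine ⟨Qh_nonneg L T τ hp, fun F => ?_⟩
  rw [Fintype.sum_prod_type, Fintype.sum_prod_type]
  refine Finset.sum_congr rfl fun ω _ => ?_
  unfold Qh
  simp only
  rcases (hp ω).eq_or_lt with h0 | h0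
  · simp [← h0]
  · have e1 : ∑ x : Ω × Fin m, P ω * (ck P L T τ x.2 ω x.1 / m) = P ω := by
      rw [← Finset.mul_sum, ← Finset.sum_div, Fintype.sum_prod_type, Finset.sum_comm,
        Finset.sum_congr rfl fun i _ => ck_sum L T τ hp i h0, Finset.sum_const, Finset.card_univ,
        Fintype.card_fin, nsmul_eq_mul, mul_one, div_self (by exact_mod_cast (by omega : m ≠ 0)),
        mul_one]
    rw [← Finset.sum_mul, e1, Finset.mul_sum]
    refine Finset.sum_congr rfl fun a _ => ?_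
    ring

/-- The law of the sample and of the label. -/
theorem ph_rs (hp : ∀ ω, 0 ≤ P ω) (hm : 1 ≤ m) : Rs (fun y : Ω × Fin m => P y.1 / m)
    (fun _ (_ : Fin m) => (1 : ℝ) / m) (fun y i => (y.1, i)) := by
  refine ⟨fun y => div_nonneg (hp _) (Nat.cast_nonneg _), fun F => ?_⟩
  have hm' : (m : ℝ) ≠ 0 := by exact_mod_cast (by omega : m ≠ 0)
  rw [Fintype.sum_prod_type, Fintype.sum_prod_type]
  refine Finset.sum_congr rfl fun ω _ => ?_
  simp only
  rw [← Finset.sum_mul, Finset.sum_const, Finset.card_univ, Fintype.card_fin, nsmul_eq_mul,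
    mul_div_cancel₀ _ hm', Finset.mul_sum]
  refine Finset.sum_congr rfl fun a _ => ?_
  ring

theorem ph_fst (hm : 1 ≤ m) :
    Marg (fun y : Ω × Fin m => P y.1 / m) P fun y => y.1 := by
  classical
  intro ω
  have hm' : (m : ℝ) ≠ 0 := by exact_mod_cast (by omega : m ≠ 0)
  rw [Fintype.sum_prod_type, Finset.sum_eq_single ω]
  · simp only [if_true]
    rw [Finset.sum_const, Finset.card_univ, Fintype.card_fin, nsmul_eq_mul,
      mul_div_cancel₀ _ hm']
  · intro b _ hb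
    refine Finset.sum_eq_zero fun i _ => ?_
    rw [if_neg]
    exact hb
  · intro h
    exact absurd (Finset.mem_univ _) h

/-- **The information of the time of the reference on the line.** -/
theorem gk_mi (hp : ∀ ω, 0 ≤ P ω) (hm : 1 ≤ m) (B : Ω → Bt) (hB : Det P L B) :
    CH (fun w : Ω × Ω => P w.1 * gk P L T τ w.1 w.2) (fun w => T w.2)
        (fun w => (T w.1, B w.1)) -
      CH (fun w : Ω × Ω => P w.1 * gk P L T τ w.1 w.2) (fun w => T w.2)
        (fun w => (L w.1, T w.1)) ≤ Pool.KVA.MI P T L B := by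
  classical
  set Q := Qh P L T τ with hQ
  have hQ0 : ∀ z, 0 ≤ Q z := Qh_nonneg L T τ hp
  have hQp : ∀ z, 0 < Q z → 0 < P z.1 ∧ 0 < P z.2.1 ∧
      lbi L T τ z.2.2 z.2.1 = lbi L T τ z.2.2 z.1 := fun z hz => Qh_pos L T τ hp hz
  rw [← (Qh_q (P := P) L T τ).CH (fun w : Ω × Ω => T w.2) (fun w => (T w.1, B w.1)),
    ← (Qh_q (P := P) L T τ).CH (fun w : Ω × Ω => T w.2) (fun w => (L w.1, T w.1))]
  simp only
  -- the label as a further variable
  have a1 : CH Q (fun z => T z.2.1) (fun z => (L z.1, T z.1)) =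
      CH Q (fun z => T z.2.1) (fun z => (L z.1, (T z.1, B z.1))) := by
    refine CH_congr hQ0 (fun _ _ _ _ h => (Prod.ext_iff.mp h).1)
      (fun _ _ _ _ h => (Prod.ext_iff.mp h).1) ?_ ?_
    · intro z z' hz hz' h
      have h1 := Prod.ext_iff.mp h
      exact Prod.ext h1.1 (Prod.ext h1.2 (hB _ _ (hQp z hz).1 (hQp z' hz').1 h1.1))
    · intro z z' _ _ h
      have h1 := Prod.ext_iff.mp h
      exact Prod.ext h1.1 (Prod.ext_iff.mp h1.2).1
  rw [a1, ← mi_eq' hQ0 (fun z => L z.1) (fun z => T z.2.1) (fun z => (T z.1, B z.1))]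
  have a2 := mi_mono hQ0 (fun z : Ω × (Ω × Fin m) => L z.1) (fun z => (z.2.2, T z.2.1))
    (fun z => T z.2.1) (fun z => (T z.1, B z.1))
    (fun _ _ _ _ h => (Prod.ext_iff.mp (Prod.ext_iff.mp h).1).2)
  have a3 := mi_chain hQ0 (fun z : Ω × (Ω × Fin m) => L z.1) (fun z => z.2.2)
    (fun z => T z.2.1) (fun z => (T z.1, B z.1))
  refine a2.trans ?_
  rw [a3]
  have hk2 : ∀ z z' : Ω × (Ω × Fin m), 0 < Q z → 0 < Q z' → () = () → ∀ s : Fin m,
      law (fun x : Ω × Fin m => ck P L T τ x.2 z.1 x.1 / m) (fun x => x.2) s =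
      law (fun x : Ω × Fin m => ck P L T τ x.2 z'.1 x.1 / m) (fun x => x.2) s := by
    have key : ∀ z : Ω × (Ω × Fin m), 0 < Q z → ∀ s : Fin m,
        law (fun x : Ω × Fin m => ck P L T τ x.2 z.1 x.1 / m) (fun x => x.2) s = 1 / m := by
      intro z hz s
      unfold law
      rw [Fintype.sum_prod_type]
      trans ∑ a, ck P L T τ s z.1 a / m
      · refine Finset.sum_congr rfl fun a _ => ?_
        rw [Finset.sum_eq_single s]
        · rw [if_pos rfl]
        · intro b _ hb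
          rw [if_neg]
          exact hb
        · intro h
          exact absurd (Finset.mem_univ _) h
      · rw [← Finset.sum_div, ck_sum L T τ hp s (hQp z hz).1]
    intro z z' hz hz' _ s
    rw [key z hz s, key z' hz' s]
  have a4 : Pool.OC.RS.mi Q (fun z => L z.1) (fun z => z.2.2) (fun z => (T z.1, B z.1)) = 0 := by
    rw [mi_eq' hQ0]
    have e1 := (Qh_rs2 L T τ hp hm).CH_eq (fun z => z.2.2) (fun x => x.2) (fun _ _ => rfl)
      (fun z => (T z.1, B z.1)) (fun _ _ => rfl) (fun _ => ()) (fun _ _ => rfl)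
      (fun _ _ _ _ _ => rfl) hk2
    have e2 := (Qh_rs2 L T τ hp hm).CH_eq (fun z => z.2.2) (fun x => x.2) (fun _ _ => rfl)
      (fun z => (L z.1, (T z.1, B z.1))) (fun _ _ => rfl) (fun _ => ()) (fun _ _ => rfl)
      (fun _ _ _ _ _ => rfl) hk2
    rw [e1, e2, sub_self]
  rw [a4, zero_add, mi_eq' hQ0]
  -- resampling of the reference
  have a5 : CH Q (fun z => T z.2.1) (fun z => (L z.1, (z.2.2, (T z.1, B z.1)))) =
      CH Q (fun z => T z.2.1) (fun z => (z.2.2, lbi L T τ z.2.2 z.1)) := by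
    refine (Qh_rs1 L T τ hp).CH_eq (fun z => T z.2.1) T (fun _ _ => rfl) _ (fun _ _ => rfl) _
      (fun _ _ => rfl) ?_ ?_
    · intro z z' _ _ h
      have h1 := Prod.ext_iff.mp h
      have h2 := Prod.ext_iff.mp h1.2
      have h3 := Prod.ext_iff.mp h2.2
      have e1 : L z.1 = L z'.1 := h1.1
      have e2 : z.2.2 = z'.2.2 := h2.1
      have e3 : T z.1 = T z'.1 := h3.1
      refine Prod.ext e2 ?_
      change lbi L T τ z.2.2 z.1 = lbi L T τ z'.2.2 z'.1
      unfold lbi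
      rw [e1, e2, e3]
    · intro z z' _ _ h s
      have h1 := Prod.ext_iff.mp h
      have e1 : z.2.2 = z'.2.2 := h1.1
      have e2 : lbi L T τ z.2.2 z.1 = lbi L T τ z'.2.2 z'.1 := h1.2
      have e3 : ck P L T τ z.2.2 z.1 = ck P L T τ z'.2.2 z'.1 := by
        rw [← e1] at e2 ⊢
        exact ck_dep L T τ _ e2
      change law (ck P L T τ z.2.2 z.1) T s = law (ck P L T τ z'.2.2 z'.1) T s
      rw [e3]
  rw [a5]
  -- everything is a function of the reference
  set ph : Ω × Fin m → ℝ := fun y => P y.1 / m with hph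
  have hph0 : ∀ y, 0 ≤ ph y := fun y => div_nonneg (hp _) (Nat.cast_nonneg _)
  have hphp : ∀ y, 0 < ph y → 0 < P y.1 := by
    intro y hy
    refine lt_of_le_of_ne (hp _) fun e => ?_
    rw [hph] at hy
    simp only [← e, zero_div] at hy
    exact lt_irrefl _ hy
  have a6 : CH Q (fun z => T z.2.1) (fun z => (z.2.2, (T z.1, B z.1))) ≤
      CH ph (fun y => T y.1) (fun y => (τ y.2 (T y.1), (y.2, B y.1))) := by
    rw [← (Qh_snd L T τ hp).CH (fun y : Ω × Fin m => T y.1)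
      (fun y => (τ y.2 (T y.1), (y.2, B y.1)))]
    refine CH_mono_cond hQ0 fun z z' hz hz' h => ?_
    have h1 := Prod.ext_iff.mp h
    have h2 := Prod.ext_iff.mp h1.2
    have e1 : z.2.2 = z'.2.2 := h1.1
    have e2 : T z.1 = T z'.1 := h2.1
    have e3 : B z.1 = B z'.1 := h2.2
    obtain ⟨b1, b2, b3⟩ := hQp z hz
    obtain ⟨c1, c2, c3⟩ := hQp z' hz'
    have b4 := Prod.ext_iff.mp b3
    have c4 := Prod.ext_iff.mp c3
    have b5 : L z.2.1 = L z.1 := b4.1
    have c5 : L z'.2.1 = L z'.1 := c4.1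
    have b6 : τ z.2.2 (T z.2.1) = τ z.2.2 (T z.1) := b4.2
    have c6 : τ z'.2.2 (T z'.2.1) = τ z'.2.2 (T z'.1) := c4.2
    refine Prod.ext ?_ (Prod.ext e1 ?_)
    · change τ z.2.2 (T z.2.1) = τ z'.2.2 (T z'.2.1)
      rw [b6, c6, e1, e2]
    · change B z.2.1 = B z'.2.1
      rw [hB _ _ b2 b1 b5, hB _ _ c2 c1 c5, e3]
  have a7 : CH Q (fun z => T z.2.1) (fun z => (z.2.2, lbi L T τ z.2.2 z.1)) =
      CH ph (fun y => T y.1) (fun y => (L y.1, (τ y.2 (T y.1), (y.2, B y.1)))) := by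
    rw [← (Qh_snd L T τ hp).CH (fun y : Ω × Fin m => T y.1)
      (fun y => (L y.1, (τ y.2 (T y.1), (y.2, B y.1))))]
    refine CH_congr hQ0 (fun _ _ _ _ h => (Prod.ext_iff.mp h).1)
      (fun _ _ _ _ h => (Prod.ext_iff.mp h).1) ?_ ?_
    · intro z z' hz hz' h
      have h1 := Prod.ext_iff.mp h
      have e1 : z.2.2 = z'.2.2 := h1.1
      obtain ⟨b1, b2, b3⟩ := hQp z hz
      obtain ⟨c1, c2, c3⟩ := hQp z' hz'
      have h2 : lbi L T τ z.2.2 z.2.1 = lbi L T τ z'.2.2 z'.2.1 := by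
        rw [b3, c3]
        exact h1.2
      have h3 := Prod.ext_iff.mp h2
      refine Prod.ext h3.1 (Prod.ext h3.2 (Prod.ext e1 ?_))
      exact hB _ _ b2 c2 h3.1
    · intro z z' hz hz' h
      have h1 := Prod.ext_iff.mp h
      have h2 := Prod.ext_iff.mp h1.2
      have h3 := Prod.ext_iff.mp h2.2
      obtain ⟨b1, b2, b3⟩ := hQp z hz
      obtain ⟨c1, c2, c3⟩ := hQp z' hz'
      refine Prod.ext h3.1 ?_
      change lbi L T τ z.2.2 z.1 = lbi L T τ z'.2.2 z'.1
      rw [← b3, ← c3]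
      exact Prod.ext h1.1 h2.1
  rw [a7]
  have a8 := mi_eq' hph0 (fun y : Ω × Fin m => L y.1) (fun y => T y.1)
    (fun y => (τ y.2 (T y.1), (y.2, B y.1)))
  have a9 := mi_chain hph0 (fun y : Ω × Fin m => L y.1) (fun y => τ y.2 (T y.1))
    (fun y => T y.1) (fun y => (y.2, B y.1))
  have a10 := mi_nonneg hph0 (fun y : Ω × Fin m => L y.1) (fun y => τ y.2 (T y.1))
    (fun y => (y.2, B y.1))
  have a11 := mi_mono hph0 (fun y : Ω × Fin m => L y.1) (fun y => T y.1)
    (fun y => (τ y.2 (T y.1), T y.1)) (fun y => (y.2, B y.1)) (by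
      intro y y' _ _ h
      have h1 := Prod.ext_iff.mp h
      have h2 := Prod.ext_iff.mp h1.2
      have e1 : T y.1 = T y'.1 := h1.1
      have e2 : y.2 = y'.2 := h2.1
      change (τ y.2 (T y.1), T y.1) = (τ y'.2 (T y'.1), T y'.1)
      rw [e1, e2])
  have a12 := mi_eq' hph0 (fun y : Ω × Fin m => L y.1) (fun y => T y.1)
    (fun y => (y.2, B y.1))
  have a13 : CH ph (fun y => T y.1) (fun y => (y.2, B y.1)) ≤
      CH ph (fun y => T y.1) (fun y => B y.1) :=
    CH_mono_cond hph0 fun _ _ _ _ h => (Prod.ext_iff.mp h).2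
  -- the label is independent of the sample
  have a14 : Pool.OC.RS.mi ph (fun y => T y.1) (fun y => y.2) (fun y => (L y.1, B y.1)) = 0 := by
    rw [mi_eq' hph0]
    have e1 := (ph_rs (P := P) hp hm).CH_eq (fun y => y.2) (fun i => i) (fun _ _ => rfl)
      (fun y => (L y.1, B y.1)) (fun _ _ => rfl) (fun _ => ()) (fun _ _ => rfl)
      (fun _ _ _ _ _ => rfl) (fun _ _ _ _ _ _ => rfl)
    have e2 := (ph_rs (P := P) hp hm).CH_eq (fun y => y.2) (fun i => i) (fun _ _ => rfl)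
      (fun y => (T y.1, (L y.1, B y.1))) (fun _ _ => rfl) (fun _ => ()) (fun _ _ => rfl)
      (fun _ _ _ _ _ => rfl) (fun _ _ _ _ _ _ => rfl)
    rw [e1, e2, sub_self]
  have a15 := mi_eq hph0 (fun y : Ω × Fin m => T y.1) (fun y => y.2)
    (fun y => (L y.1, B y.1))
  have a16 : CH ph (fun y => T y.1) (fun y => (y.2, (L y.1, B y.1))) =
      CH ph (fun y => T y.1) (fun y => (L y.1, (y.2, B y.1))) := by
    refine CH_congr hph0 (fun _ _ _ _ h => (Prod.ext_iff.mp h).1)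
      (fun _ _ _ _ h => (Prod.ext_iff.mp h).1) ?_ ?_ <;>
    · intro y y' _ _ h
      have h1 := Prod.ext_iff.mp h
      have h2 := Prod.ext_iff.mp h1.2
      exact Prod.ext h2.1 (Prod.ext h1.1 h2.2)
  have a17 := (ph_fst (P := P) hm).CH T B
  have a18 := (ph_fst (P := P) hm).CH T (fun ω => (L ω, B ω))
  have a19 := mi_eq hp T L B
  have a20 : Pool.OC.RS.mi P T L B = Pool.KVA.MI P T L B := rfl
  rw [← a20, a19, ← a17, ← a18]
  linarith

end Ker

end Pool.OCV.SC
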