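import Pool.Agent.H98.OCV.Stmts2
import Pool.Agent.H86.OC.MIA

/-!
# Schemes of references: resampling and independence

`Rs Q K r`: under the law `Q` the sample `z` may be replaced by `r z x`, where `x` has the law
`K z`. Functions of the new part have a conditional law which depends on `K` only.
-/

set_option autoImplicit false

namespace Pool.OCV.SC

open Finset Real
open Pool.Agent.H49.Ent Pool.Agent.H32.Dense Pool.STK Pool.KAF

section Rsm

variable {Z V : Type} [Fintype Z] [Fintype V] {S T U : Type}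

/-- Resampling. -/
structure Rs (Q : Z → ℝ) (K : Z → V → ℝ) (r : Z → V → Z) : Prop where
  nn : ∀ z, 0 ≤ Q z
  eq : ∀ F : Z → ℝ, ∑ z, Q z * F z = ∑ z, Q z * ∑ x, K z x * F (r z x)

theorem Rs.law_eq {Q : Z → ℝ} {K : Z → V → ℝ} {r : Z → V → Z} (h : Rs Q K r) (f : Z → S)
    (φ : V → S) (hf : ∀ z x, f (r z x) = φ x) (W : Z → T) (hW : ∀ z x, W (r z x) = W z)
    (hk : ∀ z z', 0 < Q z → 0 < Q z' → W z = W z' → ∀ s, law (K z) φ s = law (K z') φ s)
    (z : Z) (hz : 0 < Q z) (s : S) :
    law Q (fun z => (f z, W z)) (s, W z) = law (K z) φ s * law Q W (W z) := by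
  classical
  have h1 := h.eq (fun z' => if (f z', W z') = (s, W z) then 1 else 0)
  have e1 : law Q (fun z => (f z, W z)) (s, W z) =
      ∑ z', Q z' * (if (f z', W z') = (s, W z) then 1 else 0) := by
    unfold law
    refine Finset.sum_congr rfl fun z' _ => ?_
    split_ifs <;> simp
  rw [e1, h1]
  unfold law
  rw [Finset.mul_sum]
  refine Finset.sum_congr rfl fun z' _ => ?_
  have e2 : ∑ x, K z' x * (if (f (r z' x), W (r z' x)) = (s, W z) then (1 : ℝ) else 0) =
      if W z' = W z then law (K z') φ s else 0 := by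
    by_cases hw : W z' = W z
    · rw [if_pos hw]
      unfold law
      refine Finset.sum_congr rfl fun x _ => ?_
      rw [hf, hW]
      by_cases hx : φ x = s
      · rw [if_pos (Prod.ext hx hw), if_pos hx, mul_one]
      · rw [if_neg (fun e => hx (Prod.ext_iff.mp e).1), if_neg hx, mul_zero]
    · rw [if_neg hw]
      refine Finset.sum_eq_zero fun x _ => ?_
      rw [hW, if_neg (fun e => hw (Prod.ext_iff.mp e).2), mul_zero]
  rw [e2]
  by_cases hw : W z' = W z
  · rw [if_pos hw, if_pos hw]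
    rcases (h.nn z').eq_or_lt with h0 | h0
    · rw [← h0]
      simp
    · rw [hk z' z h0 hz hw s]
      unfold law
      ring
  · rw [if_neg hw, if_neg hw]
    simp

theorem Rs.CH_eq {Q : Z → ℝ} {K : Z → V → ℝ} {r : Z → V → Z} (h : Rs Q K r) (f : Z → S)
    (φ : V → S) (hf : ∀ z x, f (r z x) = φ x) (W : Z → T) (hW : ∀ z x, W (r z x) = W z)
    (G : Z → U) (hG : ∀ z x, G (r z x) = G z) (hd : Det Q W G)
    (hk : ∀ z z', 0 < Q z → 0 < Q z' → G z = G z' → ∀ s, law (K z) φ s = law (K z') φ s) :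
    CH Q f W = CH Q f G := by
  rw [CH_eq_neg_sum h.nn, CH_eq_neg_sum h.nn]
  unfold Ex
  refine Finset.sum_congr rfl fun z _ => ?_
  rcases (h.nn z).eq_or_lt with h0 | h0
  · rw [← h0, zero_mul, zero_mul]
  · beta_reduce
    rw [h.law_eq f φ hf W hW (fun z z' a b e => hk z z' a b (hd z z' a b e)) z h0 (f z),
      h.law_eq f φ hf G hG hk z h0 (f z),
      mul_div_cancel_right₀ _ (law_pos h.nn W h0).ne',
      mul_div_cancel_right₀ _ (law_pos h.nn G h0).ne']

end Rsm

/-! ### Families of variables -/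

section Fam

variable {Ω S T : Type} [Fintype Ω] {c : ℕ}

/-- The variables of a set of indices. -/
def sel (Y : Fin c → Ω → S) (s : Finset (Fin c)) (ω : Ω) (i : Fin c) : Option S :=
  if i ∈ s then some (Y i ω) else none

omit [Fintype Ω] in
theorem sel_congr (Y : Fin c → Ω → S) {s t : Finset (Fin c)} (h : s ⊆ t) {ω ω' : Ω}
    (e : sel Y t ω = sel Y t ω') : sel Y s ω = sel Y s ω' := by
  funext i
  have e1 := congrFun e i
  unfold sel at e1 ⊢
  by_cases hi : i ∈ s
  · rw [if_pos (h hi), if_pos (h hi)] at e1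
    rw [if_pos hi, if_pos hi, e1]
  · rw [if_neg hi, if_neg hi]

omit [Fintype Ω] in
theorem sel_eq (Y : Fin c → Ω → S) {s : Finset (Fin c)} {ω ω' : Ω}
    (e : sel Y s ω = sel Y s ω') {i : Fin c} (hi : i ∈ s) : Y i ω = Y i ω' := by
  have e1 := congrFun e i
  unfold sel at e1
  rw [if_pos hi, if_pos hi] at e1
  exact Option.some.inj e1

omit [Fintype Ω] in
theorem sel_inv (Y : Fin c → Ω → S) (j : Fin c) {ω ω' : Ω} (h : ∀ i, i ≠ j → Y i ω' = Y i ω) :
    sel Y (univ.erase j) ω' = sel Y (univ.erase j) ω := by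
  funext i
  unfold sel
  by_cases hi : i ∈ univ.erase j
  · rw [if_pos hi, if_pos hi, h i (Finset.mem_erase.mp hi).1]
  · rw [if_neg hi, if_neg hi]

theorem sel_step {p : Ω → ℝ} (hp : ∀ ω, 0 ≤ p ω) (Y : Fin c → Ω → S) (Z : Ω → T)
    (s : Finset (Fin c)) (a : Fin c) :
    CH p (sel Y (insert a s)) Z = CH p (sel Y s) Z + CH p (Y a) (fun ω => (sel Y s ω, Z ω)) := by
  have h1 : CH p (sel Y (insert a s)) Z = CH p (fun ω => (Y a ω, sel Y s ω)) Z := by
    refine CH_congr hp ?_ ?_ (fun _ _ _ _ h => h) (fun _ _ _ _ h => h)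
    · intro ω ω' _ _ h
      have e := (Prod.ext_iff.mp h).1
      exact Prod.ext (sel_eq Y e (Finset.mem_insert_self a s))
        (sel_congr Y (Finset.subset_insert a s) e)
    · intro ω ω' _ _ h
      have e := Prod.ext_iff.mp (Prod.ext_iff.mp h).1
      have e1 : Y a ω = Y a ω' := e.1
      have e2 : sel Y s ω = sel Y s ω' := e.2
      funext i
      unfold sel
      by_cases hi : i ∈ insert a s
      · rw [if_pos hi, if_pos hi]
        rcases Finset.mem_insert.mp hi with h' | h'
        · rw [h', e1]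
        · rw [sel_eq Y e2 h']
      · rw [if_neg hi, if_neg hi]
  rw [h1, CH_chain hp]

theorem sel_le {p : Ω → ℝ} (hp : ∀ ω, 0 ≤ p ω) (Y : Fin c → Ω → S) (Z : Ω → T)
    (s : Finset (Fin c)) : CH p (sel Y s) Z ≤ ∑ j ∈ s, CH p (Y j) Z := by
  classical
  induction s using Finset.induction_on with
  | empty =>
    rw [Finset.sum_empty]
    exact (CH_eq_zero hp fun ω ω' _ _ _ => by
      funext i
      unfold sel
      simp).le
  | insert a s ha ih =>
    rw [sel_step hp Y Z s a, Finset.sum_insert ha]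
    have := CH_mono_cond hp (X := Y a) (W' := fun ω => (sel Y s ω, Z ω)) (W := Z)
      (fun _ _ _ _ h => (Prod.ext_iff.mp h).2)
    linarith

theorem sel_ge {p : Ω → ℝ} (hp : ∀ ω, 0 ≤ p ω) (Y : Fin c → Ω → S) (Z : Ω → T)
    (s : Finset (Fin c)) :
    ∑ j ∈ s, CH p (Y j) (fun ω => (sel Y (univ.erase j) ω, Z ω)) ≤ CH p (sel Y s) Z := by
  classical
  induction s using Finset.induction_on with
  | empty =>
    rw [Finset.sum_empty]
    exact CH_nonneg hp _ _
  | insert a s ha ih =>
    rw [sel_step hp Y Z s a, Finset.sum_insert ha]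
    have hs : s ⊆ univ.erase a := fun i hi =>
      Finset.mem_erase.mpr ⟨fun e => ha (e ▸ hi), Finset.mem_univ i⟩
    have := CH_mono_cond hp (X := Y a) (W' := fun ω => (sel Y (univ.erase a) ω, Z ω))
      (W := fun ω => (sel Y s ω, Z ω)) (fun ω ω' _ _ h => by
        have e := Prod.ext_iff.mp h
        exact Prod.ext (sel_congr Y hs e.1) e.2)
    linarith

/-- All the variables of a family. -/
theorem sel_univ {p : Ω → ℝ} (hp : ∀ ω, 0 ≤ p ω) (Y : Fin c → Ω → S) (Z : Ω → T) :
    CH p (fun ω j => Y j ω) Z = CH p (sel Y univ) Z := by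
  refine CH_congr hp ?_ ?_ (fun _ _ _ _ h => h) (fun _ _ _ _ h => h)
  · intro ω ω' _ _ h
    have e : (fun j => Y j ω) = fun j => Y j ω' := (Prod.ext_iff.mp h).1
    change sel Y univ ω = sel Y univ ω'
    funext i
    unfold sel
    have e1 : Y i ω = Y i ω' := congrFun e i
    rw [e1]
  · intro ω ω' _ _ h
    have e : sel Y univ ω = sel Y univ ω' := (Prod.ext_iff.mp h).1
    change (fun j => Y j ω) = fun j => Y j ω'
    funext i
    exact sel_eq Y e (Finset.mem_univ i)

/-- Mutual information with a family. -/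
theorem mi_fam {p : Ω → ℝ} (hp : ∀ ω, 0 ≤ p ω) {U : Type} (A : Ω → U) (Y : Fin c → Ω → S)
    (Z : Ω → T) :
    Pool.KVA.MI p A (fun ω j => Y j ω) Z ≤ ∑ j, (CH p (Y j) Z -
      CH p (Y j) (fun ω => (sel Y (univ.erase j) ω, (A ω, Z ω)))) := by
  have h := Pool.OC.RS.mi_eq' hp A (fun ω j => Y j ω) Z
  change Pool.KVA.MI p A (fun ω j => Y j ω) Z = _ at h
  rw [h, sel_univ hp Y Z, sel_univ hp Y (fun ω => (A ω, Z ω)), Finset.sum_sub_distrib]
  have h1 := sel_le hp Y Z univ
  have h2 := sel_ge hp Y (fun ω => (A ω, Z ω)) univ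
  linarith

end Fam

/-! ### Products -/

section Prd

variable {V : Type} [Fintype V] {c : ℕ}

theorem prod_rs (K : Fin c → V → ℝ) (k : Fin c) (hK : ∑ x, K k x = 1)
    (F : (Fin c → V) → ℝ) :
    ∑ v, (∏ j, K j (v j)) * F v =
      ∑ v, (∏ j, K j (v j)) * ∑ x, K k x * F (Function.update v k x) := by
  classical
  have key : ∀ G : (Fin c → V) → ℝ, ∑ v, (∏ j, K j (v j)) * G v =
      ∑ u : {j // j ≠ k} → V, (∏ j, K j.1 (u j)) *
        ∑ y, K k y * G ((Equiv.funSplitAt k V).symm (y, u)) := by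
    intro G
    rw [← (Equiv.funSplitAt k V).symm.sum_comp, Fintype.sum_prod_type, Finset.sum_comm]
    refine Finset.sum_congr rfl fun u _ => ?_
    rw [Finset.mul_sum]
    refine Finset.sum_congr rfl fun y _ => ?_
    have e1 : ∏ j, K j ((Equiv.funSplitAt k V).symm (y, u) j) =
        K k y * ∏ j : {j // j ≠ k}, K j.1 (u j) := by
      rw [Fintype.prod_eq_mul_prod_subtype_ne _ k]
      congr 1
      · simp [Equiv.funSplitAt, Equiv.piSplitAt]
      · refine Finset.prod_congr rfl fun j _ => ?_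
        have := j.2
        simp [Equiv.funSplitAt, Equiv.piSplitAt, this]
    rw [e1]
    ring
  rw [key F, key]
  refine Finset.sum_congr rfl fun u _ => ?_
  congr 1
  have e2 : ∀ y x, Function.update ((Equiv.funSplitAt k V).symm (y, u)) k x =
      (Equiv.funSplitAt k V).symm (x, u) := by
    intro y x
    funext j
    by_cases hj : j = k
    · subst hj
      simp [Equiv.funSplitAt, Equiv.piSplitAt]
    · simp [Equiv.funSplitAt, Equiv.piSplitAt, hj]
  simp only [e2]
  rw [← Finset.sum_mul, hK, one_mul]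

theorem prod_one (K : Fin c → V → ℝ) (hK : ∀ k, ∑ x, K k x = 1) :
    ∑ v : Fin c → V, ∏ j, K j (v j) = 1 := by
  classical
  rw [← Fintype.prod_sum]
  exact Finset.prod_eq_one fun k _ => hK k

end Prd

/-! ### Products of kernels over a law -/

section QQ

variable {Ω V : Type} [Fintype Ω] [Fintype V] {c : ℕ}

/-- `v k` has the law `K k ω`. -/
noncomputable def QQ (P : Ω → ℝ) (K : Fin c → Ω → V → ℝ) (z : Ω × (Fin c → V)) : ℝ :=
  P z.1 * ∏ k, K k z.1 (z.2 k)

/-- The hypotheses on the kernels. -/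
structure KOk (P : Ω → ℝ) (K : Fin c → Ω → V → ℝ) : Prop where
  law : IsLaw P
  nn : ∀ k ω x, 0 ≤ K k ω x
  one : ∀ k ω, 0 < P ω → ∑ x, K k ω x = 1

variable {P : Ω → ℝ} {K : Fin c → Ω → V → ℝ}

theorem QQ_nonneg (h : KOk P K) (z : Ω × (Fin c → V)) : 0 ≤ QQ P K z :=
  mul_nonneg (h.law.nonneg _) (Finset.prod_nonneg fun k _ => h.nn k _ _)

theorem QQ_pos (h : KOk P K) {z : Ω × (Fin c → V)} (hz : 0 < QQ P K z) :
    0 < P z.1 ∧ ∀ k, 0 < K k z.1 (z.2 k) := by
  constructor
  · refine lt_of_le_of_ne (h.law.nonneg _) fun e => ?_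
    unfold QQ at hz
    rw [← e, zero_mul] at hz
    exact lt_irrefl _ hz
  · intro k
    refine lt_of_le_of_ne (h.nn k _ _) fun e => ?_
    unfold QQ at hz
    rw [Finset.prod_eq_zero (Finset.mem_univ k) e.symm, mul_zero] at hz
    exact lt_irrefl _ hz

theorem QQ_fst (h : KOk P K) : Marg (QQ P K) P fun z => z.1 := by
  classical
  intro ω
  rw [Fintype.sum_prod_type, Finset.sum_eq_single ω]
  · simp only [if_true]
    unfold QQ
    simp only
    rw [← Finset.mul_sum]
    rcases (h.law.nonneg ω).eq_or_lt with h0 | h0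
    · rw [← h0, zero_mul]
    · rw [prod_one (fun k => K k ω) (fun k => h.one k ω h0), mul_one]
  · intro b _ hb
    simp [hb]
  · intro h'
    exact absurd (Finset.mem_univ _) h'

theorem QQ_law (h : KOk P K) : IsLaw (QQ P K) :=
  ⟨QQ_nonneg h, by rw [(QQ_fst h).sum, h.law.sum_one]⟩

theorem QQ_rs (h : KOk P K) (k : Fin c) :
    Rs (QQ P K) (fun z x => K k z.1 x) (fun z x => (z.1, Function.update z.2 k x)) := by
  refine ⟨QQ_nonneg h, fun F => ?_⟩
  rw [Fintype.sum_prod_type, Fintype.sum_prod_type]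
  refine Finset.sum_congr rfl fun ω _ => ?_
  unfold QQ
  simp only [mul_assoc]
  rw [← Finset.mul_sum, ← Finset.mul_sum]
  rcases (h.law.nonneg ω).eq_or_lt with h0 | h0
  · rw [← h0, zero_mul, zero_mul]
  · rw [prod_rs (fun k => K k ω) k (h.one k ω h0) fun v => F (ω, v)]

/-- The law of one component. -/
theorem QQ_pair (h : KOk P K) (k : Fin c) :
    Marg (QQ P K) (fun w : Ω × V => P w.1 * K k w.1 w.2) fun z => (z.1, z.2 k) := by
  classical
  rintro ⟨ω, x⟩
  have h1 := (QQ_rs h k).eq fun z => if (z.1, z.2 k) = (ω, x) then 1 else 0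
  refine (Finset.sum_congr rfl fun z _ => ?_).trans (h1.trans ?_)
  · by_cases hz : (z.1, z.2 k) = (ω, x)
    · rw [if_pos hz, if_pos hz, mul_one]
    · rw [if_neg hz, if_neg hz, mul_zero]
  have e2 : ∀ z : Ω × (Fin c → V), ∑ y, K k z.1 y *
      (if ((z.1, Function.update z.2 k y).1, (z.1, Function.update z.2 k y).2 k) = (ω, x)
        then (1 : ℝ) else 0) = if z.1 = ω then K k ω x else 0 := by
    intro z
    by_cases hz : z.1 = ω
    · rw [if_pos hz, Finset.sum_eq_single x]
      · simp [hz]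
      · intro y _ hy
        rw [if_neg, mul_zero]
        intro e
        exact hy (by simpa using (Prod.ext_iff.mp e).2)
      · intro h'
        exact absurd (Finset.mem_univ _) h'
    · rw [if_neg hz]
      refine Finset.sum_eq_zero fun y _ => ?_
      rw [if_neg, mul_zero]
      intro e
      exact hz (Prod.ext_iff.mp e).1
  simp only [e2]
  have e3 : ∑ z, QQ P K z * (if z.1 = ω then K k ω x else 0) =
      (∑ z, if z.1 = ω then QQ P K z else 0) * K k ω x := by
    rw [Finset.sum_mul]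
    refine Finset.sum_congr rfl fun z _ => ?_
    split_ifs <;> simp
  rw [e3, QQ_fst h ω]

end QQ

end Pool.OCV.SC
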